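import Mathlib
import Pool.Agent.Q117.LocD.Basic

/-!
# Local derivations form a Lie algebra

Let `A` be a finite-dimensional, not necessarily associative algebra over `ℝ` or `ℂ`. The local
derivations of `A` form a Lie subalgebra of `End(A)`.
-/

set_option autoImplicit false

namespace Pool.Agent.Results.MP_066924_al.LocalDerivations

universe u v

variable {𝕜 : Type u} [RCLike 𝕜] {A : Type v} [AddCommGroup A] [Module 𝕜 A]

/-- `D` is a derivation of the algebra `A` with the product `μ`. -/
def IsDerivation (μ : A →ₗ[𝕜] A →ₗ[𝕜] A) (D : Module.End 𝕜 A) : Prop :=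
  ∀ x y : A, D (μ x y) = μ (D x) y + μ x (D y)

/-- `T` is a local derivation of the algebra `A` with the product `μ`. -/
def IsLocalDerivation (μ : A →ₗ[𝕜] A →ₗ[𝕜] A) (T : Module.End 𝕜 A) : Prop :=
  ∀ x : A, ∃ D : Module.End 𝕜 A, IsDerivation μ D ∧ T x = D x

/-- The space of the derivations. -/
def der (μ : A →ₗ[𝕜] A →ₗ[𝕜] A) : Submodule 𝕜 (Module.End 𝕜 A) where
  carrier := {D | IsDerivation μ D}
  zero_mem' := by
    intro x y
    simp
  add_mem' := by
    intro D E hD hE x y
    simp only [LinearMap.add_apply, map_add, hD x y, hE x y]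
    abel
  smul_mem' := by
    intro c D hD x y
    simp only [LinearMap.smul_apply, map_smul, hD x y, smul_add]

theorem der_comm (μ : A →ₗ[𝕜] A →ₗ[𝕜] A) : ∀ D ∈ der μ, ∀ E ∈ der μ, D * E - E * D ∈ der μ := by
  intro D hD E hE x y
  have hD' : ∀ x y : A, D (μ x y) = μ (D x) y + μ x (D y) := hD
  have hE' : ∀ x y : A, E (μ x y) = μ (E x) y + μ x (E y) := hE
  simp only [LinearMap.sub_apply, Module.End.mul_apply, hD', hE', map_add, map_sub]
  abel

/-- Let `A` be a finite-dimensional algebra over `ℝ` or `ℂ` (a finite-dimensional space with a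
bilinear product `μ`). The local derivations of `A` form a linear subspace of `End(A)` which is
closed under the commutator, that is, a Lie algebra under the commutator. -/
theorem result (𝕜 : Type u) [RCLike 𝕜] (A : Type v) [AddCommGroup A] [Module 𝕜 A]
    [FiniteDimensional 𝕜 A] (μ : A →ₗ[𝕜] A →ₗ[𝕜] A) :
    ∃ L : Submodule 𝕜 (Module.End 𝕜 A), (∀ T : Module.End 𝕜 A, T ∈ L ↔ IsLocalDerivation μ T) ∧
      ∀ S ∈ L, ∀ T ∈ L, S * T - T * S ∈ L := by
  refine ⟨{ carrier := {T | IsLocalDerivation μ T}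
            zero_mem' := fun x => ⟨0, (der μ).zero_mem, rfl⟩
            add_mem' := ?_
            smul_mem' := ?_ }, fun T => Iff.rfl, ?_⟩
  · intro S T hS hT x
    obtain ⟨D, hD, h1⟩ := hS x
    obtain ⟨E, hE, h2⟩ := hT x
    exact ⟨D + E, (der μ).add_mem hD hE, by rw [LinearMap.add_apply, h1, h2]; rfl⟩
  · intro c T hT x
    obtain ⟨D, hD, h1⟩ := hT x
    exact ⟨c • D, (der μ).smul_mem c hD, by rw [LinearMap.smul_apply, h1]; rfl⟩
  · intro S hS T hT x
    obtain ⟨D, hD, h⟩ := Pool.Agent.Q117.LocD.comm_local_alg (der μ) (der_comm μ) S T hS hT x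
    exact ⟨D, hD, h⟩

end Pool.Agent.Results.MP_066924_al.LocalDerivations
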